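import Pool.Agent.REV.StmtsG4
import Pool.Agent.Helper89_REV.TTP
import Pool.Agent.Helper65_REV.A13All

set_option autoImplicit false

namespace Pool.Agent.REV.H15

open MeasureTheory Set
open Pool.Agent.REV.H89 (wI wI_meas wI_bound RA_eq RB_eq)

lemma RB_bound (n : ℕ) (φ : ℝ → ℝ) (C : ℝ) (hn : 3 ≤ n) (hφ : ∀ t, 0 ≤ φ t) (hC : ∀ t, φ t ≤ C)
    (c : ℝ) : 0 ≤ RB n φ c ∧
      RB n φ c ≤ C * ∫ r in (0 : ℝ)..1, r ^ 2 * (1 - r ^ 2) ^ (((n : ℝ) - 4) / 2) := by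
  have hw : ∀ r : ℝ, r ∈ Icc (0 : ℝ) 1 → 0 ≤ r ^ 2 * (1 - r ^ 2) ^ (((n : ℝ) - 4) / 2) := by
    intro r hr
    have h1 : 0 ≤ 1 - r ^ 2 := by nlinarith [hr.1, hr.2]
    exact mul_nonneg (sq_nonneg r) (Real.rpow_nonneg h1 _)
  have hi := (Pool.Agent.REV.H65.int3All n hn).2.1
  constructor
  · refine intervalIntegral.integral_nonneg zero_le_one fun r hr => ?_
    exact mul_nonneg (hw r hr) (hφ _)
  · have h1 := intervalIntegral.norm_integral_le_of_norm_le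
      (f := fun r : ℝ => r ^ 2 * (1 - r ^ 2) ^ (((n : ℝ) - 4) / 2) * φ (r * c))
      (g := fun r : ℝ => C * (r ^ 2 * (1 - r ^ 2) ^ (((n : ℝ) - 4) / 2))) (μ := volume)
      (zero_le_one : (0 : ℝ) ≤ 1) (Filter.Eventually.of_forall fun r hr => ?_) (hi.const_mul C)
    · rw [intervalIntegral.integral_const_mul] at h1
      exact (le_abs_self _).trans h1
    · have hr' : r ∈ Icc (0 : ℝ) 1 := ⟨hr.1.le, hr.2⟩
      rw [Real.norm_of_nonneg (mul_nonneg (hw r hr') (hφ _)), mul_comm C]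
      exact mul_le_mul_of_nonneg_left (hC _) (hw r hr')

theorem ttp3 : Ttp3Stmt := by
  intro n i c1 c2 φ hn h1 h2 hφ
  obtain ⟨C, hC⟩ := hφ.bdd
  have hC0 : 0 ≤ C := (hφ.nonneg 0).trans (hC 0)
  have hn' : (3 : ℝ) ≤ n := by exact_mod_cast hn
  have hRA : ∀ c, 0 ≤ RA n φ c ∧ RA n φ c ≤ C := by
    rw [RA_eq]
    exact wI_bound _ _ φ C (by linarith) (fun r _ => ⟨zero_le_one, le_rfl⟩) hφ.nonneg hC
  obtain ⟨J, hJ⟩ : ∃ J : ℝ, J = ∫ r in (0 : ℝ)..1, r ^ 2 * (1 - r ^ 2) ^ (((n : ℝ) - 4) / 2) :=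
    ⟨_, rfl⟩
  have hRB : ∀ c, 0 ≤ RB n φ c ∧ RB n φ c ≤ C * J := by
    intro c
    rw [hJ]
    exact RB_bound n φ C hn hφ.nonneg hC c
  have hCJ : 0 ≤ C * J := (hRB 0).1.trans (hRB 0).2
  have mRA : Measurable (RA n φ) := by
    rw [RA_eq]
    exact wI_meas _ _ φ measurable_const hφ.meas
  have mRB : Measurable (RB n φ) := by
    rw [RB_eq]
    exact wI_meas _ _ φ (measurable_id.pow_const 2) hφ.meas
  have ms : Measurable (fun t : ℝ => Real.sqrt (1 - t ^ 2)) :=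
    (measurable_const.sub (measurable_id.pow_const 2)).sqrt
  refine ⟨?_, ?_, ?_⟩
  · unfold TT
    exact (((mRA.comp ms).pow_const i).const_mul c1).add
      (((mRB.comp ms).mul ((mRA.comp ms).pow_const (i - 1))).const_mul c2)
  · intro t
    unfold TT
    have a := hRA (Real.sqrt (1 - t ^ 2))
    have b := hRB (Real.sqrt (1 - t ^ 2))
    exact add_nonneg (mul_nonneg h1 (pow_nonneg a.1 _))
      (mul_nonneg h2 (mul_nonneg b.1 (pow_nonneg a.1 _)))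
  · refine ⟨c1 * C ^ i + c2 * (C * J * C ^ (i - 1)), fun t => ?_⟩
    unfold TT
    have a := hRA (Real.sqrt (1 - t ^ 2))
    have b := hRB (Real.sqrt (1 - t ^ 2))
    refine add_le_add (mul_le_mul_of_nonneg_left (pow_le_pow_left₀ a.1 a.2 i) h1)
      (mul_le_mul_of_nonneg_left ?_ h2)
    exact mul_le_mul b.2 (pow_le_pow_left₀ a.1 a.2 _) (pow_nonneg a.1 _) hCJ

end Pool.Agent.REV.H15
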